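import Pool.Agent.SYS.XP.Comp
import Pool.Agent.SYS.XP.Cut

/-!
# SYS-S0-Hull: a connected set of faces with a short boundary is contained in one half of a cut with a boundary which is not longer

Some component of the complement has at least half of the faces: otherwise every component `Z` satisfies
`Z.ncard ≤ (1 / c + L) * (bdy T Z).ncard`, and the sum over the components contradicts the size of `Y`.
-/

namespace SYS.XP

open Classical SST

theorem hull {n : ℕ} {T : Tri (Fin (6 * n))} (hT : T.Conn) {c L m : ℝ} (hc0 : 0 < c) (hL : 0 ≤ L)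
    (hfam : ∀ Z ∈ fam c T, (Z.ncard : ℝ) ≤ L) {Y : Set (Fin (6 * n))} (hf : Fs T Y) (hc : DC T Y) (hne : Y.Nonempty)
    (hb : ((bdy T Y).ncard : ℝ) ≤ m) (hsm : (Y.ncard : ℝ) + (1 / c + L) * m < 6 * n) :
    ∃ Z, Cut2 T Z ∧ Y ⊆ Z ∧ 2 * Z.ncard ≤ 6 * n ∧ (bdy T Z).ncard ≤ (bdy T Y).ncard := by
  obtain ⟨Zs, h1, h2, h3⟩ := comps hT hf hc hne
  have hcard : ∀ W : Set (Fin (6 * n)), W.ncard + Wᶜ.ncard = 6 * n := by
    intro W
    rw [Set.ncard_add_ncard_compl, Nat.card_fin]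
  by_cases hbig : ∃ Z ∈ Zs, 6 * n ≤ 2 * Z.ncard
  · obtain ⟨Z, hZ, hZ2⟩ := hbig
    obtain ⟨h4, h5, h6⟩ := h1 Z hZ
    refine ⟨Zᶜ, cut2_compl h4, Set.subset_compl_comm.1 h5, ?_, Set.ncard_le_ncard h6 (Set.toFinite _)⟩
    have := hcard Z
    omega
  · exfalso
    push Not at hbig
    have hcL : 0 ≤ 1 / c + L := by positivity
    have h4 : ∀ Z ∈ Zs, (Z.ncard : ℝ) ≤ (1 / c + L) * ((bdy T Z).ncard : ℝ) := by
      intro Z hZ
      have h5 := (h1 Z hZ).1
      have h6 := hbig Z hZ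
      have h7 : 1 ≤ (bdy T Z).ncard := (Set.ncard_pos (Set.toFinite _)).2 (bdy_ne hT h5)
      have h7' : (1 : ℝ) ≤ ((bdy T Z).ncard : ℝ) := by exact_mod_cast h7
      rw [add_mul]
      by_cases h8 : ((bdy T Z).ncard : ℝ) ≤ c * Z.ncard
      · have h9 : Z ∈ fam c T := ⟨h5, by rw [Nat.card_fin]; omega, h8⟩
        have h10 := hfam Z h9
        have h11 : L ≤ L * ((bdy T Z).ncard : ℝ) := le_mul_of_one_le_right hL h7'
        have h12 : 0 ≤ 1 / c * ((bdy T Z).ncard : ℝ) := by positivity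
        linarith
      · rw [not_le] at h8
        have h9 : (Z.ncard : ℝ) ≤ 1 / c * ((bdy T Z).ncard : ℝ) := by
          rw [one_div_mul_eq_div, le_div_iff₀ hc0]
          linarith
        have h11 : 0 ≤ L * ((bdy T Z).ncard : ℝ) := by positivity
        linarith
    have h5 : (Yᶜ.ncard : ℝ) ≤ (1 / c + L) * ((bdy T Y).ncard : ℝ) := by
      rw [← h2, ← h3]
      push_cast
      rw [Finset.mul_sum]
      exact Finset.sum_le_sum h4
    have h6 : (1 / c + L) * ((bdy T Y).ncard : ℝ) ≤ (1 / c + L) * m :=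
      mul_le_mul_of_nonneg_left hb hcL
    have h7 : ((Y.ncard : ℝ)) + (Yᶜ.ncard : ℝ) = 6 * n := by
      exact_mod_cast hcard Y
    linarith

end SYS.XP
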