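import Pool.Agent.SYS.XP.PbA
import Pool.Agent.SYS.XP.Cut

/-!
# SYS-S0-Sq: the number of pairs of darts in a common set of faces of `fam c`

`pairs_le` bounds the number of pairs (triangulation, member of `fam c` with `3 d` darts).  The triples of the
first part are covered by the sets `{T} × Y × Y` (at most `(3 d) ^ 2` elements), the triangulations of the
second part by the first components of the pairs with `3 d > K log n`.
-/

namespace SYS.XP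

open Classical SST

private theorem un_le {X I : Type} [Finite X] (s : Finset I) (B : I → Set X) :
    (⋃ p ∈ s, B p).ncard ≤ ∑ p ∈ s, (B p).ncard := by
  induction s using Finset.induction_on with
  | empty => simp
  | insert a s ha ih =>
    rw [Finset.set_biUnion_insert, Finset.sum_insert ha]
    exact (Set.ncard_union_le _ _).trans (Nat.add_le_add_left ih _)

/-- The pairs (triangulation, member of the family with `3 d` darts). -/
private def PP (c : ℝ) (n g d : ℕ) : Set (Tri (Fin (6 * n)) × Set (Fin (6 * n))) :=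
  {z | z.1 ∈ Trn n g ∧ z.2 ∈ fam c z.1 ∧ z.2.ncard = 3 * d}

private theorem three_of {c : ℝ} {n : ℕ} {T : Tri (Fin (6 * n))} {Y : Set (Fin (6 * n))}
    (hY : Y ∈ fam c T) : ∃ d, 1 ≤ d ∧ d ≤ 2 * n ∧ Y.ncard = 3 * d := by
  obtain ⟨d, hd⟩ := fs_three hY.1.fs
  have h1 : Y.ncard ≤ 6 * n := by
    have := Set.ncard_le_ncard (Set.subset_univ Y) (Set.toFinite _)
    rwa [Set.ncard_univ, Nat.card_fin] at this
  have h2 : 0 < Y.ncard := (Set.ncard_pos (Set.toFinite _)).2 hY.1.ne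
  exact ⟨d, by omega, by omega, hd⟩

private theorem trip_le (c : ℝ) (n g : ℕ) :
    {z : Tri (Fin (6 * n)) × Fin (6 * n) × Fin (6 * n) | z.1 ∈ Trn n g ∧
      ∃ Y ∈ fam c z.1, z.2.1 ∈ Y ∧ z.2.2 ∈ Y}.ncard ≤
    ∑ d ∈ Finset.Icc 1 (2 * n), (PP c n g d).ncard * (3 * d * (3 * d)) := by
  have h1 : {z : Tri (Fin (6 * n)) × Fin (6 * n) × Fin (6 * n) | z.1 ∈ Trn n g ∧
      ∃ Y ∈ fam c z.1, z.2.1 ∈ Y ∧ z.2.2 ∈ Y} ⊆
      ⋃ d ∈ Finset.Icc 1 (2 * n), ⋃ p ∈ (Set.toFinite (PP c n g d)).toFinset,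
        (({p.1} : Set (Tri (Fin (6 * n)))) ×ˢ (p.2 ×ˢ p.2)) := by
    rintro ⟨T, u, v⟩ ⟨hT, Y, hY, hu, hv⟩
    obtain ⟨d, h1, h2, h3⟩ := three_of hY
    rw [Set.mem_iUnion₂]
    refine ⟨d, Finset.mem_Icc.2 ⟨h1, h2⟩, ?_⟩
    rw [Set.mem_iUnion₂]
    refine ⟨(T, Y), ?_, ?_⟩
    · rw [Set.Finite.mem_toFinset]
      exact ⟨hT, hY, h3⟩
    · exact ⟨rfl, hu, hv⟩
  refine (Set.ncard_le_ncard h1 (Set.toFinite _)).trans ((un_le _ _).trans ?_)
  refine Finset.sum_le_sum fun d _ => (un_le _ _).trans ?_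
  have h2 : ∀ p ∈ (Set.toFinite (PP c n g d)).toFinset,
      (({p.1} : Set (Tri (Fin (6 * n)))) ×ˢ (p.2 ×ˢ p.2)).ncard = 3 * d * (3 * d) := by
    intro p hp
    rw [Set.Finite.mem_toFinset] at hp
    rw [Set.ncard_prod, Set.ncard_prod, Set.ncard_singleton, hp.2.2, one_mul]
  rw [Finset.sum_congr rfl h2, Finset.sum_const, smul_eq_mul, ← Set.ncard_eq_toFinset_card]

private theorem big_le (c L : ℝ) (n g : ℕ) :
    {T : Tri (Fin (6 * n)) | T ∈ Trn n g ∧ ¬ ∀ Y ∈ fam c T, (Y.ncard : ℝ) ≤ L}.ncard ≤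
    ∑ d ∈ (Finset.Icc 1 (2 * n)).filter (fun d : ℕ => L < 3 * (d : ℝ)), (PP c n g d).ncard := by
  have h1 : {T : Tri (Fin (6 * n)) | T ∈ Trn n g ∧ ¬ ∀ Y ∈ fam c T, (Y.ncard : ℝ) ≤ L} ⊆
      ⋃ d ∈ (Finset.Icc 1 (2 * n)).filter (fun d : ℕ => L < 3 * (d : ℝ)), Prod.fst '' (PP c n g d) := by
    rintro T ⟨hT, hn⟩
    push Not at hn
    obtain ⟨Y, hY, hL⟩ := hn
    obtain ⟨d, h1, h2, h3⟩ := three_of hY
    rw [Set.mem_iUnion₂]
    refine ⟨d, ?_, (T, Y), ⟨hT, hY, h3⟩, rfl⟩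
    rw [Finset.mem_filter, Finset.mem_Icc]
    refine ⟨⟨h1, h2⟩, ?_⟩
    rw [h3] at hL
    push_cast at hL
    exact hL
  refine (Set.ncard_le_ncard h1 (Set.toFinite _)).trans ((un_le _ _).trans ?_)
  exact Finset.sum_le_sum fun d _ => Set.ncard_image_le (Set.toFinite _)

theorem sq_le {θ x : ℝ} (h : Num.Par θ x) : ∃ c K : ℝ, 0 < c ∧ c ≤ 1 ∧ 0 < K ∧ ∀ᶠ q in RB.Fth θ,
    (({z : Tri (Fin (6 * q.1)) × Fin (6 * q.1) × Fin (6 * q.1) | z.1 ∈ Trn q.1 q.2 ∧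
      ∃ Y ∈ fam c z.1, z.2.1 ∈ Y ∧ z.2.2 ∈ Y}.ncard : ℕ) : ℝ) ≤ K * q.1 * (Trn q.1 q.2).ncard ∧
    (q.1 : ℝ) * (({T : Tri (Fin (6 * q.1)) | T ∈ Trn q.1 q.2 ∧ ¬ ∀ Y ∈ fam c T, (Y.ncard : ℝ) ≤ K * Real.log q.1}.ncard : ℕ) : ℝ) ≤
      (Trn q.1 q.2).ncard := by
  obtain ⟨c, c2, K0, hc, hc1, hc2, hK0, hev⟩ := pairs_le h
  have hsum : Summable fun d : ℕ => (d : ℝ) ^ 2 * Real.exp (-c2 * d) :=
    Real.summable_pow_mul_exp_neg_nat_mul 2 hc2
  set W₀ : ℝ := ∑' d : ℕ, (d : ℝ) ^ 2 * Real.exp (-c2 * d) with hW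
  have hW0 : 0 ≤ W₀ := tsum_nonneg fun d => by positivity
  have hK : 0 < 9 * K0 * W₀ + 12 / c2 := by positivity
  refine ⟨c, 9 * K0 * W₀ + 12 / c2, hc, hc1, hK, ?_⟩
  have hq : Filter.Tendsto (fun q : ℕ × ℕ => q.1) (RB.Fth θ) Filter.atTop :=
    Filter.tendsto_comap.mono_left inf_le_left
  have hqr : Filter.Tendsto (fun q : ℕ × ℕ => (q.1 : ℝ)) (RB.Fth θ) Filter.atTop :=
    tendsto_natCast_atTop_atTop.comp hq
  filter_upwards [hev, hq.eventually (Filter.eventually_ge_atTop 1),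
    hqr.eventually (Filter.eventually_ge_atTop (2 * K0))] with q hp hn1 hn2
  obtain ⟨n, g⟩ := q
  dsimp only at hp hn1 hn2 ⊢
  have hn0 : (0 : ℝ) < n := by exact_mod_cast hn1
  have hn1' : (1 : ℝ) ≤ n := by exact_mod_cast hn1
  have hlog : 0 ≤ Real.log n := Real.log_nonneg hn1'
  have hA : (0 : ℝ) ≤ ((Trn n g).ncard : ℝ) := Nat.cast_nonneg _
  have hP : ∀ d : ℕ, 1 ≤ d → ((PP c n g d).ncard : ℝ) ≤
      K0 * n * Real.exp (-c2 * d) * (Trn n g).ncard := hp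
  constructor
  · have h1 : (({z : Tri (Fin (6 * n)) × Fin (6 * n) × Fin (6 * n) | z.1 ∈ Trn n g ∧
        ∃ Y ∈ fam c z.1, z.2.1 ∈ Y ∧ z.2.2 ∈ Y}.ncard : ℕ) : ℝ) ≤
        ((∑ d ∈ Finset.Icc 1 (2 * n), (PP c n g d).ncard * (3 * d * (3 * d)) : ℕ) : ℝ) := by
      exact_mod_cast trip_le c n g
    refine h1.trans ?_
    push_cast
    have h2 : ∑ d ∈ Finset.Icc 1 (2 * n), ((PP c n g d).ncard : ℝ) * (3 * (d : ℝ) * (3 * (d : ℝ))) ≤
        ∑ d ∈ Finset.Icc 1 (2 * n), (9 * K0 * n * (Trn n g).ncard) *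
          ((d : ℝ) ^ 2 * Real.exp (-c2 * d)) := by
      refine Finset.sum_le_sum fun d hd => ?_
      have h3 := mul_le_mul_of_nonneg_right (hP d (Finset.mem_Icc.1 hd).1)
        (show (0 : ℝ) ≤ 3 * (d : ℝ) * (3 * (d : ℝ)) by positivity)
      refine h3.trans (le_of_eq ?_)
      ring
    rw [← Finset.mul_sum] at h2
    refine h2.trans ?_
    have h3 : ∑ d ∈ Finset.Icc 1 (2 * n), ((d : ℝ) ^ 2 * Real.exp (-c2 * d)) ≤ W₀ :=
      hsum.sum_le_tsum _ fun d _ => by positivity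
    have h4 := mul_le_mul_of_nonneg_left h3
      (show (0 : ℝ) ≤ 9 * K0 * n * (Trn n g).ncard by positivity)
    refine h4.trans ?_
    have h5 : 0 ≤ 12 / c2 * n * ((Trn n g).ncard : ℝ) := by positivity
    nlinarith
  · set L : ℝ := (9 * K0 * W₀ + 12 / c2) * Real.log n with hL
    have h1 : (({T : Tri (Fin (6 * n)) | T ∈ Trn n g ∧ ¬ ∀ Y ∈ fam c T, (Y.ncard : ℝ) ≤ L}.ncard : ℕ) :
        ℝ) ≤ ((∑ d ∈ (Finset.Icc 1 (2 * n)).filter (fun d : ℕ => L < 3 * (d : ℝ)),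
          (PP c n g d).ncard : ℕ) : ℝ) := by
      exact_mod_cast big_le c L n g
    push_cast at h1
    have h4 : Real.exp (-(4 * Real.log n)) = ((n : ℝ) ^ 4)⁻¹ := by
      rw [Real.exp_neg, mul_comm, Real.exp_mul, Real.exp_log hn0]
      norm_cast
    have h2 : ∑ d ∈ (Finset.Icc 1 (2 * n)).filter (fun d : ℕ => L < 3 * (d : ℝ)),
          ((PP c n g d).ncard : ℝ) ≤
        ∑ d ∈ (Finset.Icc 1 (2 * n)).filter (fun d : ℕ => L < 3 * (d : ℝ)),
          K0 * n * ((n : ℝ) ^ 4)⁻¹ * (Trn n g).ncard := by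
      refine Finset.sum_le_sum fun d hd => ?_
      rw [Finset.mem_filter, Finset.mem_Icc] at hd
      refine (hP d hd.1.1).trans ?_
      refine mul_le_mul_of_nonneg_right ?_ hA
      refine mul_le_mul_of_nonneg_left ?_ (by positivity)
      rw [← h4]
      apply Real.exp_le_exp.2
      have h5 : 12 / c2 * Real.log n ≤ L := by
        rw [hL]
        exact mul_le_mul_of_nonneg_right (by linarith [mul_nonneg (by positivity : (0:ℝ) ≤ 9 * K0) hW0]) hlog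
      have h6 : 12 / c2 * Real.log n < 3 * (d : ℝ) := h5.trans_lt hd.2
      have h7 : 12 * Real.log n < 3 * (d : ℝ) * c2 := by
        have h8 := mul_lt_mul_of_pos_right h6 hc2
        have h9 : 12 / c2 * Real.log n * c2 = 12 * Real.log n := by field_simp
        rw [h9] at h8
        exact h8
      linarith
    rw [Finset.sum_const, nsmul_eq_mul] at h2
    have h3 : ((((Finset.Icc 1 (2 * n)).filter (fun d : ℕ => L < 3 * (d : ℝ))).card : ℕ) : ℝ) ≤ 2 * n := by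
      have h5 : ((Finset.Icc 1 (2 * n)).filter (fun d : ℕ => L < 3 * (d : ℝ))).card ≤ 2 * n := by
        refine (Finset.card_filter_le _ _).trans ?_
        rw [Nat.card_Icc]
        omega
      exact_mod_cast h5
    have h5 : (0 : ℝ) ≤ K0 * n * ((n : ℝ) ^ 4)⁻¹ * (Trn n g).ncard := by positivity
    have h6 := mul_le_mul_of_nonneg_right h3 h5
    have h7 := mul_le_mul_of_nonneg_left (h1.trans (h2.trans h6)) hn0.le
    refine h7.trans ?_
    have h8 : (n : ℝ) * (2 * n * (K0 * n * ((n : ℝ) ^ 4)⁻¹ * (Trn n g).ncard)) =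
        (2 * K0 / n) * (Trn n g).ncard := by
      field_simp
    rw [h8]
    have h9 : 2 * K0 / n ≤ 1 := by
      rw [div_le_one hn0]
      exact hn2
    calc (2 * K0 / n) * ((Trn n g).ncard : ℝ) ≤ 1 * (Trn n g).ncard :=
          mul_le_mul_of_nonneg_right h9 hA
      _ = (Trn n g).ncard := one_mul _

end SYS.XP
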