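import Pool.Agent.SYS.S0.Ball
import Pool.Agent.SYS.S0.Hull
import Pool.Agent.SYS.S0.Sq

/-!
# SYS-S0-Main: few pairs of faces are in a common connected set of faces with a short boundary (lower bound `S_0` for the constants of the block)
-/

namespace SYS.XP

open Classical SST

/-- `x` and `y` are in a common connected set of at most `A` darts with at most `L` boundary darts. -/
def CoD {D : Type} (T : Tri D) (L A : ℝ) (x y : D) : Prop :=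
  ∃ Y : Set D, Fs T Y ∧ DC T Y ∧ x ∈ Y ∧ y ∈ Y ∧ ((bdy T Y).ncard : ℝ) ≤ L ∧ (Y.ncard : ℝ) ≤ A

private theorem s0_mono {D : Type} (T : Tri D) (W : Set D) {j k : ℕ} (h : j ≤ k) :
    (nb T)^[j] W ⊆ (nb T)^[k] W := by
  induction k, h using Nat.le_induction with
  | base => exact subset_rfl
  | succ k _ ih =>
    rw [Function.iterate_succ_apply']
    exact ih.trans (sub_nb T _)

private theorem s0_cnt {α β : Type} [Finite α] [Finite β] (s : Set α) (W : α → Set β) (N : ℕ)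
    (hW : ∀ a, (W a).ncard ≤ N) : {z : α × β | z.1 ∈ s ∧ z.2 ∈ W z.1}.ncard ≤ N * s.ncard := by
  let _ : Fintype α := Fintype.ofFinite α
  let _ : Fintype β := Fintype.ofFinite β
  rw [Set.ncard_eq_toFinset_card', Set.ncard_eq_toFinset_card']
  refine Finset.card_le_mul_card_image_of_maps_to (f := Prod.fst) (fun z hz => ?_) N (fun a _ => ?_)
  · rw [Set.mem_toFinset] at hz ⊢
    exact hz.1
  · refine le_trans ?_ (hW a)
    rw [Set.ncard_eq_toFinset_card']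
    refine Finset.card_le_card_of_injOn Prod.snd (fun z hz => ?_) (fun z hz z' hz' h => ?_)
    · rw [Finset.mem_coe, Finset.mem_filter, Set.mem_toFinset] at hz
      rw [Finset.mem_coe, Set.mem_toFinset, ← hz.2]
      exact hz.1.2
    · rw [Finset.mem_coe, Finset.mem_filter] at hz hz'
      exact Prod.ext (hz.2.trans hz'.2.symm) h

/-- the pairs with distance at most `k` of the faces -/
private def s0W {n : ℕ} (k : ℕ) (T : Tri (Fin (6 * n))) : Set (Fin (6 * n) × Fin (6 * n)) :=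
  {p | p.1 ∈ (Set.univ : Set (Fin (6 * n))) ∧ p.2 ∈ (nb T)^[k] {p.1, T.f p.1, T.f (T.f p.1)}}

private theorem s0W_card {n : ℕ} (k : ℕ) (T : Tri (Fin (6 * n))) :
    (s0W k T).ncard ≤ 3 * 4 ^ k * (6 * n) := by
  have h1 := s0_cnt (Set.univ : Set (Fin (6 * n)))
    (fun x => (nb T)^[k] {x, T.f x, T.f (T.f x)}) (3 * 4 ^ k) (fun x => ball_le T x k)
  rw [Set.ncard_univ, Nat.card_fin] at h1
  exact h1

private theorem s0_incl {n g : ℕ} {c K s0 l : ℝ} (hc : 0 < c) (hK : 0 < K)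
    (hs0 : s0 = 3 * c / 8) (hl : 0 ≤ l) (hsm : (1 / c + K * l) * (s0 * l) < 5 * n) :
    {z : Tri (Fin (6 * n)) × Fin (6 * n) × Fin (6 * n) | z.1 ∈ Trn n g ∧
      CoD z.1 (s0 * l) n z.2.1 z.2.2} ⊆
    {z | z.1 ∈ {T | T ∈ Trn n g ∧ ¬ ∀ Y ∈ fam c T, (Y.ncard : ℝ) ≤ K * l} ∧ z.2 ∈ Set.univ} ∪
      ({z | z.1 ∈ Trn n g ∧ ∃ Y ∈ fam c z.1, z.2.1 ∈ Y ∧ z.2.2 ∈ Y} ∪
        {z | z.1 ∈ Trn n g ∧ z.2 ∈ s0W ⌊3 / 8 * l⌋₊ z.1}) := by
  rintro ⟨T, x, y⟩ ⟨hT, Y, hf, hd, hx, hy, hb, hn⟩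
  change T ∈ Trn n g at hT
  change x ∈ Y at hx
  change y ∈ Y at hy
  by_cases hfam : ∀ Y ∈ fam c T, (Y.ncard : ℝ) ≤ K * l
  · right
    obtain ⟨Z, hZ, hYZ, hZn, hZb⟩ := hull hT.1 hc (mul_nonneg hK.le hl) hfam hf hd ⟨x, hx⟩ hb
      (by linarith)
    have hZb' : ((bdy T Z).ncard : ℝ) ≤ s0 * l :=
      le_trans (by exact_mod_cast hZb) hb
    by_cases h1 : ((bdy T Z).ncard : ℝ) ≤ c * Z.ncard
    · left
      refine ⟨hT, Z, ⟨hZ, ?_, h1⟩, hYZ hx, hYZ hy⟩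
      rw [Nat.card_fin]
      exact hZn
    · right
      refine ⟨hT, Set.mem_univ _, ?_⟩
      have h2 : (Z.ncard : ℝ) ≤ 3 / 8 * l := by
        rw [not_le] at h1
        have h3 : c * (Z.ncard : ℝ) ≤ c * (3 / 8 * l) := by
          rw [hs0] at hZb'
          linarith
        exact le_of_mul_le_mul_left h3 hc
      have h3 : Z.ncard ≤ ⌊3 / 8 * l⌋₊ := Nat.le_floor h2
      exact s0_mono T _ h3 (dc_ball hZ.fs hZ.dc (hYZ hx) (hYZ hy))
  · left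
    exact ⟨⟨hT, hfam⟩, Set.mem_univ _⟩

private theorem s0_num {n : ℕ} (hn : 1 ≤ n) {K c s0 δ t l A0 B0 : ℝ} (hl : l = Real.log n)
    (ht : t = Real.exp (l / 4)) (hc : 0 < c) (hK : 0 < K) (hs0 : s0 = 3 * c / 8) (hδ : 0 < δ)
    (h1 : 1 ≤ t) (h2 : (54 + K) / δ ≤ t) (h3 : (1 / c + 4 * K) * (4 * s0) ≤ t)
    (hA : 0 ≤ A0) (hB : (n : ℝ) * B0 ≤ A0) :
    (1 / c + K * l) * (s0 * l) < 5 * n ∧
      B0 * (6 * n * (6 * n)) + (K * n * A0 + A0 * (3 * 4 ^ ⌊3 / 8 * l⌋₊ * (6 * n))) ≤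
        δ * n ^ 2 * A0 := by
  have hn0 : (0 : ℝ) < n := by exact_mod_cast hn
  have ht0 : 0 < t := by linarith
  have hl0 : 0 ≤ l := by
    rw [hl]
    exact Real.log_nonneg (by exact_mod_cast hn)
  have hn4 : (n : ℝ) = t ^ 4 := by
    rw [ht, ← Real.exp_nat_mul]
    push_cast
    rw [mul_div_cancel₀ l (by norm_num : (4 : ℝ) ≠ 0), hl, Real.exp_log hn0]
  have hlt : l ≤ 4 * t := by
    have h4 := Real.add_one_le_exp (l / 4)
    rw [← ht] at h4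
    linarith
  have hs00 : 0 < s0 := by rw [hs0]; positivity
  have hci : 0 < 1 / c := by positivity
  constructor
  · have h4 : 1 / c + K * l ≤ (1 / c + 4 * K) * t := by
      have h5 : K * l ≤ K * (4 * t) := mul_le_mul_of_nonneg_left hlt hK.le
      have h6 : 1 / c * 1 ≤ 1 / c * t := mul_le_mul_of_nonneg_left h1 hci.le
      linarith
    have h5 : s0 * l ≤ s0 * (4 * t) := mul_le_mul_of_nonneg_left hlt hs00.le
    have h6 : (1 / c + K * l) * (s0 * l) ≤ (1 / c + 4 * K) * t * (s0 * (4 * t)) :=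
      mul_le_mul h4 h5 (by positivity) (by positivity)
    have h7 : (1 / c + 4 * K) * t * (s0 * (4 * t)) = (1 / c + 4 * K) * (4 * s0) * t ^ 2 := by ring
    have h8 : (1 / c + 4 * K) * (4 * s0) * t ^ 2 ≤ t * t ^ 2 :=
      mul_le_mul_of_nonneg_right h3 (by positivity)
    have h9 : t * t ^ 2 ≤ t ^ 4 := by
      have h10 : t ^ 3 * 1 ≤ t ^ 3 * t := mul_le_mul_of_nonneg_left h1 (by positivity)
      calc t * t ^ 2 = t ^ 3 * 1 := by ring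
        _ ≤ t ^ 3 * t := h10
        _ = t ^ 4 := by ring
    have h10 : 0 < t ^ 4 := by positivity
    rw [hn4]
    linarith
  · have h4 : (4 : ℝ) ^ ⌊3 / 8 * l⌋₊ ≤ t ^ 3 := by
      have h5 : (4 : ℝ) ≤ Real.exp 2 := by
        have h6 := Real.add_one_le_exp (1 : ℝ)
        have h7 : Real.exp 2 = Real.exp 1 * Real.exp 1 := by
          rw [← Real.exp_add]
          norm_num
        rw [h7]
        nlinarith
      have h6 : (4 : ℝ) ^ ⌊3 / 8 * l⌋₊ ≤ Real.exp 2 ^ ⌊3 / 8 * l⌋₊ :=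
        pow_le_pow_left₀ (by norm_num) h5 _
      refine h6.trans ?_
      rw [ht, ← Real.exp_nat_mul, ← Real.exp_nat_mul]
      apply Real.exp_le_exp.2
      have h7 : ((⌊3 / 8 * l⌋₊ : ℕ) : ℝ) ≤ 3 / 8 * l := Nat.floor_le (by positivity)
      push_cast
      linarith
    have h5 : A0 * (3 * 4 ^ ⌊3 / 8 * l⌋₊ * (6 * n)) ≤ A0 * (3 * t ^ 3 * (6 * n)) :=
      mul_le_mul_of_nonneg_left (mul_le_mul_of_nonneg_right
        (mul_le_mul_of_nonneg_left h4 (by norm_num)) (by positivity)) hA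
    have h6 : B0 * (6 * n * (6 * n)) ≤ 36 * n * A0 := by
      have h7 : B0 * (6 * n * (6 * n)) = 36 * n * (n * B0) := by ring
      rw [h7]
      exact mul_le_mul_of_nonneg_left hB (by positivity)
    have h7 : 36 + K + 18 * t ^ 3 ≤ δ * n := by
      have h8 : 1 ≤ t ^ 3 := one_le_pow₀ h1
      have h9 : 54 + K ≤ δ * t := by
        rw [div_le_iff₀ hδ] at h2
        linarith
      have h10 : (54 + K) * t ^ 3 ≤ δ * t * t ^ 3 := mul_le_mul_of_nonneg_right h9 (by positivity)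
      have h11 : (36 + K) * 1 ≤ (36 + K) * t ^ 3 := mul_le_mul_of_nonneg_left h8 (by positivity)
      have h12 : δ * t * t ^ 3 = δ * n := by rw [hn4]; ring
      linarith
    have h8 : (36 + K + 18 * t ^ 3) * (n * A0) ≤ δ * n * (n * A0) :=
      mul_le_mul_of_nonneg_right h7 (by positivity)
    calc B0 * (6 * n * (6 * n)) + (K * n * A0 + A0 * (3 * 4 ^ ⌊3 / 8 * l⌋₊ * (6 * n)))
        ≤ 36 * n * A0 + (K * n * A0 + A0 * (3 * t ^ 3 * (6 * n))) :=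
          add_le_add h6 (add_le_add le_rfl h5)
      _ = (36 + K + 18 * t ^ 3) * (n * A0) := by ring
      _ ≤ δ * n * (n * A0) := h8
      _ = δ * n ^ 2 * A0 := by ring

theorem s0_main {θ x : ℝ} (h : Num.Par θ x) : ∃ s0 : ℝ, 0 < s0 ∧ ∀ δ : ℝ, 0 < δ → ∀ᶠ q in RB.Fth θ,
    (({z : Tri (Fin (6 * q.1)) × Fin (6 * q.1) × Fin (6 * q.1) | z.1 ∈ Trn q.1 q.2 ∧
      CoD z.1 (s0 * Real.log q.1) q.1 z.2.1 z.2.2}.ncard : ℕ) : ℝ) ≤ δ * q.1 ^ 2 * (Trn q.1 q.2).ncard := by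
  obtain ⟨c, K, hc, _, hK, hev⟩ := sq_le h
  refine ⟨3 * c / 8, by positivity, fun δ hδ => ?_⟩
  have hn1 : Filter.Tendsto (fun q : ℕ × ℕ => q.1) (RB.Fth θ) Filter.atTop :=
    Filter.tendsto_inf_left Filter.tendsto_comap
  have ht : Filter.Tendsto (fun q : ℕ × ℕ => Real.exp (Real.log (q.1 : ℝ) / 4)) (RB.Fth θ) Filter.atTop :=
    Real.tendsto_exp_atTop.comp ((Real.tendsto_log_atTop.comp
      (tendsto_natCast_atTop_atTop.comp hn1)).atTop_div_const (by norm_num))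
  filter_upwards [hev, hn1.eventually_ge_atTop 1, ht.eventually_ge_atTop 1,
    ht.eventually_ge_atTop ((54 + K) / δ),
    ht.eventually_ge_atTop ((1 / c + 4 * K) * (4 * (3 * c / 8)))] with q hq hq1 ht1 ht2 ht3
  obtain ⟨hq2, hq3⟩ := hq
  obtain ⟨hs1, hs2⟩ := s0_num hq1 (K := K) (c := c) (s0 := 3 * c / 8) (δ := δ) rfl rfl hc hK rfl hδ ht1
    ht2 ht3 (Nat.cast_nonneg _) hq3
  refine le_trans ?_ hs2
  have hl : 0 ≤ Real.log (q.1 : ℝ) := Real.log_nonneg (by exact_mod_cast hq1)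
  have hincl := s0_incl (g := q.2) hc hK rfl hl hs1
  have h1 := (Set.ncard_le_ncard hincl (Set.toFinite _)).trans
    ((Set.ncard_union_le _ _).trans (Nat.add_le_add_left (Set.ncard_union_le _ _) _))
  have h2 : {z : Tri (Fin (6 * q.1)) × Fin (6 * q.1) × Fin (6 * q.1) |
      z.1 ∈ {T | T ∈ Trn q.1 q.2 ∧ ¬ ∀ Y ∈ fam c T, (Y.ncard : ℝ) ≤ K * Real.log q.1} ∧
        z.2 ∈ Set.univ}.ncard ≤ (6 * q.1) * (6 * q.1) *
      {T : Tri (Fin (6 * q.1)) | T ∈ Trn q.1 q.2 ∧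
        ¬ ∀ Y ∈ fam c T, (Y.ncard : ℝ) ≤ K * Real.log q.1}.ncard := by
    refine s0_cnt _ (fun _ => Set.univ) _ fun T => ?_
    rw [Set.ncard_univ, Nat.card_prod, Nat.card_fin]
  have h3 : {z : Tri (Fin (6 * q.1)) × Fin (6 * q.1) × Fin (6 * q.1) |
      z.1 ∈ Trn q.1 q.2 ∧ z.2 ∈ s0W ⌊3 / 8 * Real.log (q.1 : ℝ)⌋₊ z.1}.ncard ≤
        3 * 4 ^ ⌊3 / 8 * Real.log (q.1 : ℝ)⌋₊ * (6 * q.1) * (Trn q.1 q.2).ncard :=
    s0_cnt _ (s0W ⌊3 / 8 * Real.log (q.1 : ℝ)⌋₊) _ fun T => s0W_card _ T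
  have h1' : (({z : Tri (Fin (6 * q.1)) × Fin (6 * q.1) × Fin (6 * q.1) | z.1 ∈ Trn q.1 q.2 ∧
      CoD z.1 (3 * c / 8 * Real.log q.1) q.1 z.2.1 z.2.2}.ncard : ℕ) : ℝ) ≤
      (({z : Tri (Fin (6 * q.1)) × Fin (6 * q.1) × Fin (6 * q.1) |
        z.1 ∈ {T | T ∈ Trn q.1 q.2 ∧ ¬ ∀ Y ∈ fam c T, (Y.ncard : ℝ) ≤ K * Real.log q.1} ∧
          z.2 ∈ Set.univ}.ncard : ℕ) : ℝ) +
      ((({z : Tri (Fin (6 * q.1)) × Fin (6 * q.1) × Fin (6 * q.1) |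
        z.1 ∈ Trn q.1 q.2 ∧ ∃ Y ∈ fam c z.1, z.2.1 ∈ Y ∧ z.2.2 ∈ Y}.ncard : ℕ) : ℝ) +
      (({z : Tri (Fin (6 * q.1)) × Fin (6 * q.1) × Fin (6 * q.1) |
      z.1 ∈ Trn q.1 q.2 ∧ z.2 ∈ s0W ⌊3 / 8 * Real.log (q.1 : ℝ)⌋₊ z.1}.ncard : ℕ) : ℝ)) := by
    exact_mod_cast h1
  refine h1'.trans (add_le_add ?_ (add_le_add hq2 ?_))
  · refine le_trans (Nat.cast_le.2 h2) (le_of_eq ?_)
    push_cast
    ring
  · refine le_trans (Nat.cast_le.2 h3) (le_of_eq ?_)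
    push_cast
    ring

end SYS.XP
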