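import Pool.Agent.SYS.XP.Nb

/-!
# SYS-S0-Ball: a connected set of faces is contained in a dual ball
-/

namespace SYS.XP

open Classical SST

variable {D : Type} [Finite D]

omit [Finite D] in
private theorem tri_fs (T : Tri D) (x : D) : Fs T {x, T.f x, T.f (T.f x)} := by
  intro d
  simp only [Set.mem_insert_iff, Set.mem_singleton_iff, EmbeddingLike.apply_eq_iff_eq]
  have h1 : T.f d = x ↔ d = T.f (T.f x) := by
    constructor
    · rintro rfl
      exact (T.fff d).symm
    · rintro rfl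
      exact T.fff x
  rw [h1]
  tauto

omit [Finite D] in
private theorem nbk_mono (T : Tri D) (S : Set D) (k : ℕ) : (nb T)^[k] S ⊆ (nb T)^[k + 1] S := by
  rw [Function.iterate_succ_apply']
  exact sub_nb T _

private theorem step (T : Tri D) {Y : Set D} (hf : Fs T Y) (hc : DC T Y) {x : D} (hx : x ∈ Y)
    (k : ℕ) : k + 1 ≤ (Y ∩ (nb T)^[k] {x, T.f x, T.f (T.f x)}).ncard ∨
      Y ∩ (nb T)^[k] {x, T.f x, T.f (T.f x)} = Y := by
  induction k with
  | zero =>
    left
    rw [zero_add, Nat.one_le_iff_ne_zero, Ne, Set.ncard_eq_zero (Set.toFinite _)]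
    intro h
    have h1 : x ∈ Y ∩ (nb T)^[0] {x, T.f x, T.f (T.f x)} := ⟨hx, Or.inl rfl⟩
    rw [h] at h1
    exact h1
  | succ k ih =>
    by_cases hY : Y ∩ (nb T)^[k] {x, T.f x, T.f (T.f x)} = Y
    · right
      refine Set.Subset.antisymm Set.inter_subset_left ?_
      intro d hd
      rw [← hY] at hd
      exact ⟨hd.1, nbk_mono T _ k hd.2⟩
    · left
      have ih1 := ih.resolve_right hY
      have h1 : ∃ d ∈ Y ∩ (nb T)^[k] {x, T.f x, T.f (T.f x)}, T.a d ∈ Y ∧
          T.a d ∉ Y ∩ (nb T)^[k] {x, T.f x, T.f (T.f x)} := by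
        by_contra h2
        push Not at h2
        refine hY (hc _ Set.inter_subset_left ?_ ?_ h2)
        · rw [← Set.ncard_pos (Set.toFinite _)]
          omega
        · intro d hd
          exact ⟨(hf d).2 hd.1, (nbk_fs (tri_fs T x) k d).2 hd.2⟩
      obtain ⟨d, hd, hdY, hdn⟩ := h1
      have h2 : (Y ∩ (nb T)^[k] {x, T.f x, T.f (T.f x)}).ncard <
          (Y ∩ (nb T)^[k + 1] {x, T.f x, T.f (T.f x)}).ncard := by
        refine Set.ncard_lt_ncard ?_ (Set.toFinite _)
        refine (Set.ssubset_iff_of_subset ?_).2 ⟨T.a d, ⟨hdY, ?_⟩, hdn⟩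
        · intro e he
          exact ⟨he.1, nbk_mono T _ k he.2⟩
        · rw [Function.iterate_succ_apply']
          refine Or.inr (Or.inl ?_)
          rw [T.aa]
          exact hd.2
      omega

theorem dc_ball {T : Tri D} {Y : Set D} (hf : Fs T Y) (hc : DC T Y) {x : D} (hx : x ∈ Y) :
    Y ⊆ (nb T)^[Y.ncard] {x, T.f x, T.f (T.f x)} := by
  rcases step T hf hc hx Y.ncard with h | h
  · exfalso
    have h1 := Set.ncard_le_ncard (Set.inter_subset_left :
      Y ∩ (nb T)^[Y.ncard] {x, T.f x, T.f (T.f x)} ⊆ Y) (Set.toFinite _)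
    omega
  · intro d hd
    rw [← h] at hd
    exact hd.2

theorem nb_le (T : Tri D) (Y : Set D) : (nb T Y).ncard ≤ 4 * Y.ncard := by
  have h1 : ∀ g : D → D, Function.Injective g → {d | g d ∈ Y}.ncard ≤ Y.ncard := by
    intro g hg
    exact Set.ncard_le_ncard_of_injOn g (fun a ha => ha) hg.injOn (Set.toFinite _)
  have h2 : nb T Y = Y ∪ ({d | T.a d ∈ Y} ∪ ({d | T.a (T.f d) ∈ Y} ∪
      {d | T.a (T.f (T.f d)) ∈ Y})) := rfl
  have h3 := h1 (fun d => T.a d) T.a.injective
  have h4 := h1 (fun d => T.a (T.f d)) (T.a.injective.comp T.f.injective)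
  have h5 := h1 (fun d => T.a (T.f (T.f d)))
    (T.a.injective.comp (T.f.injective.comp T.f.injective))
  have h6 := Set.ncard_union_le Y ({d | T.a d ∈ Y} ∪ ({d | T.a (T.f d) ∈ Y} ∪
      {d | T.a (T.f (T.f d)) ∈ Y}))
  have h7 := Set.ncard_union_le {d | T.a d ∈ Y} ({d | T.a (T.f d) ∈ Y} ∪
      {d | T.a (T.f (T.f d)) ∈ Y})
  have h8 := Set.ncard_union_le {d | T.a (T.f d) ∈ Y} {d | T.a (T.f (T.f d)) ∈ Y}
  rw [h2]
  omega

theorem ball_le (T : Tri D) (x : D) (k : ℕ) : ((nb T)^[k] {x, T.f x, T.f (T.f x)}).ncard ≤ 3 * 4 ^ k := by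
  induction k with
  | zero =>
    have h1 := Set.ncard_insert_le x {T.f x, T.f (T.f x)}
    have h2 := Set.ncard_insert_le (T.f x) {T.f (T.f x)}
    rw [Set.ncard_singleton] at h2
    rw [Function.iterate_zero, id]
    omega
  | succ k ih =>
    rw [Function.iterate_succ_apply', pow_succ]
    have h1 := nb_le T ((nb T)^[k] {x, T.f x, T.f (T.f x)})
    omega

end SYS.XP
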